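import Pool.Agent.H68.GP.Targets

/-!
# Gap-SETH for constant-depth circuits, module PARG: the parameters
-/

namespace Pool.Agent.H87.GP

open Finset Filter Pool.Agent.H68.AC Pool.Agent.H68.GP

/-- The base 2 logarithm is eventually at most a small multiple of the square root. -/
theorem log_le_sqrt (c : ℝ) (hc : 0 < c) : ∀ᶠ n : ℕ in atTop, (Nat.log 2 n : ℝ) ≤ c * √(n : ℝ) := by
  have h0 := (isLittleO_log_rpow_atTop (show (0 : ℝ) < 1 / 2 by norm_num)).comp_tendsto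
    tendsto_natCast_atTop_atTop
  have h1 := h0.bound (show (0 : ℝ) < c * Real.log 2 by positivity)
  filter_upwards [h1, eventually_ge_atTop 1] with n hn hn1
  simp only [Function.comp, Real.norm_eq_abs] at hn
  have h2 : (2 : ℝ) ^ Nat.log 2 n ≤ n := by exact_mod_cast Nat.pow_log_le_self 2 (by omega)
  have h3 : (Nat.log 2 n : ℝ) * Real.log 2 ≤ Real.log n := by
    rw [← Real.log_pow]
    exact Real.log_le_log (by positivity) h2
  have h4 : Real.log n ≤ c * Real.log 2 * √(n : ℝ) := by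
    have := (le_abs_self _).trans hn
    rwa [abs_of_nonneg (Real.rpow_nonneg (Nat.cast_nonneg n) _), ← Real.sqrt_eq_rpow] at this
  have hl2 : 0 < Real.log 2 := Real.log_pos (by norm_num)
  by_contra hc2
  push Not at hc2
  nlinarith

/-- The first term. -/
theorem term1 (ε : ℝ) (hε : 0 < ε) (n k Q s : ℕ) (hn : 1 ≤ n) (h5 : 5 * (k * Q) ≤ n) :
    (2 : ℝ) ^ (k * Q) * (s * (3 / 2 * 16 ^ (k * Q) / 2 ^ (4 * n + 1))) ≤
      s * 2 ^ (-((1 - ε) * n)) / 4 := by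
  have e1 : (2 : ℝ) ^ (k * Q) * 16 ^ (k * Q) ≤ 2 ^ n := by
    have : (16 : ℝ) ^ (k * Q) = 2 ^ (4 * (k * Q)) := by rw [pow_mul 2 4]; norm_num
    rw [this, ← pow_add]
    exact pow_le_pow_right₀ (by norm_num) (by omega)
  have e2 : (2 : ℝ) ^ (4 * n + 1) = 2 * (2 ^ n * 2 ^ n * 2 ^ n * 2 ^ n) := by ring
  have e3 : (2 : ℝ) ^ (-(n : ℝ)) ≤ 2 ^ (-((1 - ε) * n)) := by
    apply Real.rpow_le_rpow_of_exponent_le (by norm_num)
    have : 0 ≤ ε * (n : ℝ) := mul_nonneg hε.le (Nat.cast_nonneg n)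
    linarith
  rw [Real.rpow_neg (by norm_num), Real.rpow_natCast] at e3
  have e4 : (2 : ℝ) ≤ 2 ^ n := by
    calc (2 : ℝ) = 2 ^ 1 := by norm_num
      _ ≤ 2 ^ n := pow_le_pow_right₀ (by norm_num) hn
  have hX : (0 : ℝ) < 2 ^ n := by positivity
  have e5 : (2 : ℝ) ^ (k * Q) * (s * (3 / 2 * 16 ^ (k * Q) / 2 ^ (4 * n + 1))) =
      s * (3 / 2 * (2 ^ (k * Q) * 16 ^ (k * Q)) / (2 * (2 ^ n * 2 ^ n * 2 ^ n * 2 ^ n))) := by
    rw [e2]
    ring
  rw [e5]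
  have e6 : 3 / 2 * ((2 : ℝ) ^ (k * Q) * 16 ^ (k * Q)) / (2 * (2 ^ n * 2 ^ n * 2 ^ n * 2 ^ n)) ≤
      (2 ^ n)⁻¹ / 4 := by
    calc 3 / 2 * ((2 : ℝ) ^ (k * Q) * 16 ^ (k * Q)) / (2 * (2 ^ n * 2 ^ n * 2 ^ n * 2 ^ n))
        ≤ 3 / 2 * 2 ^ n / (2 * (2 ^ n * 2 ^ n * 2 ^ n * 2 ^ n)) := by gcongr
      _ = 3 / (2 ^ n * 2 ^ n) * ((2 ^ n)⁻¹ / 4) := by
          field_simp
          norm_num
      _ ≤ 1 * ((2 ^ n)⁻¹ / 4) := by
          refine mul_le_mul_of_nonneg_right ?_ (by positivity)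
          rw [div_le_one (by positivity)]
          have := mul_le_mul e4 e4 (by norm_num) (by linarith)
          linarith
      _ = _ := one_mul _
  calc (s : ℝ) * (3 / 2 * (2 ^ (k * Q) * 16 ^ (k * Q)) / (2 * (2 ^ n * 2 ^ n * 2 ^ n * 2 ^ n)))
      ≤ s * ((2 ^ n)⁻¹ / 4) := mul_le_mul_of_nonneg_left e6 (Nat.cast_nonneg s)
    _ ≤ s * (2 ^ (-((1 - ε) * n)) / 4) := by
        refine mul_le_mul_of_nonneg_left ?_ (Nat.cast_nonneg s)
        linarith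
    _ = _ := by ring

/-- The second term. -/
theorem term2 (ε δ : ℝ) (hδ : 0 < δ) (n k Q s L C' d : ℕ) (hk : 1 ≤ k)
    (hL9 : 9 ≤ L) (hng : (n : ℝ) < 2 * 2 ^ L) (hn0 : (0 : ℝ) < n)
    (hLQ : 16 * ((Q : ℝ) + 3) ≤ ε * L)
    (hd : ((C' : ℝ) + 2) * (2 * Q) * (d * δ) ≤ ε / 8)
    (hkL : (1 - ε) * n ≤ (1 - 7 * ε / 16) * (k * L)) :
    (2 : ℝ) ^ (k * Q) * (s * (3 / 2 * (1 / (1 / (2 ^ L) ^ C' / (256 * n))) ^ (d * (2 * ⌊δ * k⌋₊ * Q)) /
      ((2 ^ L : ℕ) : ℝ) ^ (⌊(1 - ε / 4) * k⌋₊ + 1))) ≤ s * 2 ^ (-((1 - ε) * n)) / 4 := by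
  set g : ℝ := 2 ^ L with hg
  have hg512 : (512 : ℝ) ≤ g := by
    calc (512 : ℝ) = 2 ^ 9 := by norm_num
      _ ≤ 2 ^ L := pow_le_pow_right₀ (by norm_num) hL9
  have hg0 : 0 < g := by linarith
  have hk0 : (0 : ℝ) < k := by exact_mod_cast hk
  have hk1 : (1 : ℝ) ≤ k := by exact_mod_cast hk
  have hL0 : (0 : ℝ) < L := by
    have : (9 : ℝ) ≤ L := by exact_mod_cast hL9
    linarith
  have hN : ((2 ^ L : ℕ) : ℝ) = g := by push_cast; rfl
  rw [hN]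
  have hg2 : ∀ m : ℕ, g ^ m = (2 : ℝ) ^ ((L : ℝ) * m) := by
    intro m
    rw [hg, ← pow_mul, ← Real.rpow_natCast]; push_cast; rfl
  obtain ⟨h, hh⟩ : ∃ h, h = ⌊δ * k⌋₊ := ⟨_, rfl⟩
  rw [← hh]
  have hhk : (h : ℝ) ≤ δ * k := by rw [hh]; exact Nat.floor_le (by positivity)
  have hq : 1 / (1 / g ^ C' / (256 * n)) ≤ g ^ (C' + 2) := by
    have e0 : 1 / (1 / g ^ C' / (256 * n)) = 256 * n * g ^ C' := by field_simp
    rw [e0]
    have e1 : 256 * (n : ℝ) ≤ g ^ 2 := by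
      have := mul_le_mul_of_nonneg_right hg512 hg0.le
      rw [sq]
      linarith
    calc 256 * n * g ^ C' ≤ g ^ 2 * g ^ C' := by gcongr
      _ = g ^ (C' + 2) := by ring
  have hA : (1 / (1 / g ^ C' / (256 * n))) ^ (d * (2 * h * Q)) ≤ (2 : ℝ) ^ ((L : ℝ) * k * (ε / 8)) := by
    calc (1 / (1 / g ^ C' / (256 * n))) ^ (d * (2 * h * Q)) ≤ (g ^ (C' + 2)) ^ (d * (2 * h * Q)) := by
          gcongr
      _ = g ^ ((C' + 2) * (d * (2 * h * Q))) := by rw [← pow_mul]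
      _ = (2 : ℝ) ^ ((L : ℝ) * (((C' + 2) * (d * (2 * h * Q)) : ℕ) : ℝ)) := hg2 _
      _ ≤ (2 : ℝ) ^ ((L : ℝ) * k * (ε / 8)) := by
        apply Real.rpow_le_rpow_of_exponent_le (by norm_num)
        push_cast
        have e1 : ((C' : ℝ) + 2) * (d * (2 * h * Q)) ≤ (C' + 2) * (d * (2 * (δ * k) * Q)) := by
          gcongr
        have e2 : ((C' : ℝ) + 2) * (d * (2 * (δ * k) * Q)) = (C' + 2) * (2 * Q) * (d * δ) * k := by
          ring
        have e3 : ((C' : ℝ) + 2) * (2 * Q) * (d * δ) * k ≤ ε / 8 * k :=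
          mul_le_mul_of_nonneg_right hd hk0.le
        have e4 : (L : ℝ) * (((C' : ℝ) + 2) * (d * (2 * h * Q))) ≤ L * (ε / 8 * k) :=
          mul_le_mul_of_nonneg_left (by linarith) hL0.le
        linarith
  have hB : 6 * (2 : ℝ) ^ (k * Q) ≤ (2 : ℝ) ^ ((L : ℝ) * k * (ε / 16)) := by
    calc 6 * (2 : ℝ) ^ (k * Q) ≤ 2 ^ 3 * 2 ^ (k * Q) := by
          have : (0 : ℝ) < 2 ^ (k * Q) := by positivity
          linarith
      _ = 2 ^ (3 + k * Q) := (pow_add _ _ _).symm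
      _ = (2 : ℝ) ^ (((3 + k * Q : ℕ) : ℝ)) := (Real.rpow_natCast _ _).symm
      _ ≤ _ := by
          apply Real.rpow_le_rpow_of_exponent_le (by norm_num)
          push_cast
          have := mul_le_mul_of_nonneg_left hLQ hk0.le
          linarith
  have hC : (2 : ℝ) ^ ((L : ℝ) * k * (1 - ε / 4)) ≤ g ^ (⌊(1 - ε / 4) * k⌋₊ + 1) := by
    rw [hg2]
    apply Real.rpow_le_rpow_of_exponent_le (by norm_num)
    have e1 : (1 - ε / 4) * k < ⌊(1 - ε / 4) * k⌋₊ + 1 := Nat.lt_floor_add_one _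
    push_cast
    calc (L : ℝ) * k * (1 - ε / 4) = L * ((1 - ε / 4) * k) := by ring
      _ ≤ L * (⌊(1 - ε / 4) * k⌋₊ + 1) := mul_le_mul_of_nonneg_left e1.le (by positivity)
  have hs0 : (0 : ℝ) ≤ s := Nat.cast_nonneg s
  calc (2 : ℝ) ^ (k * Q) * (s * (3 / 2 * (1 / (1 / g ^ C' / (256 * n))) ^ (d * (2 * h * Q)) /
      g ^ (⌊(1 - ε / 4) * k⌋₊ + 1)))
      ≤ (2 : ℝ) ^ (k * Q) * (s * (3 / 2 * (2 : ℝ) ^ ((L : ℝ) * k * (ε / 8)) /
        (2 : ℝ) ^ ((L : ℝ) * k * (1 - ε / 4)))) := by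
        gcongr
    _ = s * ((6 * (2 : ℝ) ^ (k * Q)) * (2 : ℝ) ^ ((L : ℝ) * k * (ε / 8)) /
        (2 : ℝ) ^ ((L : ℝ) * k * (1 - ε / 4))) / 4 := by ring
    _ ≤ s * ((2 : ℝ) ^ ((L : ℝ) * k * (ε / 16)) * (2 : ℝ) ^ ((L : ℝ) * k * (ε / 8)) /
        (2 : ℝ) ^ ((L : ℝ) * k * (1 - ε / 4))) / 4 := by
        gcongr
    _ = s * (2 : ℝ) ^ ((L : ℝ) * k * (ε / 16) + (L : ℝ) * k * (ε / 8) -
        (L : ℝ) * k * (1 - ε / 4)) / 4 := by
        rw [Real.rpow_sub (by norm_num), Real.rpow_add (by norm_num)]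
    _ ≤ s * 2 ^ (-((1 - ε) * n)) / 4 := by
        have e1 : (L : ℝ) * k * (ε / 16) + (L : ℝ) * k * (ε / 8) - (L : ℝ) * k * (1 - ε / 4) ≤
            -((1 - ε) * n) := by
          linarith
        have e2 := Real.rpow_le_rpow_of_exponent_le (show (1 : ℝ) ≤ 2 by norm_num) e1
        gcongr

/-- PARG: the parameters. -/
theorem parg : T_PARG := by
  intro ε θ κ c₀ Q a' C' K₀ hε hε1 hθ hθ1 hκ hc₀ hQ hC'
  obtain ⟨δ₁, hδ₁⟩ : ∃ δ₁ : ℝ, δ₁ = min κ (ε / (16 * Q * (C' + 2))) := ⟨_, rfl⟩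
  have hQ1 : (1 : ℝ) ≤ Q := by exact_mod_cast hQ
  have hC0 : (0 : ℝ) ≤ C' := Nat.cast_nonneg C'
  have hδ₁0 : 0 < δ₁ := by
    rw [hδ₁]
    exact lt_min hκ (by positivity)
  have hδ₁κ : δ₁ ≤ κ := by rw [hδ₁]; exact min_le_left _ _
  have hδ₁ε : δ₁ ≤ ε / (16 * Q * (C' + 2)) := by rw [hδ₁]; exact min_le_right _ _
  have hδ₁32 : δ₁ ≤ ε / 32 := by
    refine hδ₁ε.trans ?_
    apply div_le_div_of_nonneg_left hε.le (by norm_num)
    have := mul_le_mul hQ1 (show (2 : ℝ) ≤ C' + 2 by linarith) (by norm_num) (by linarith)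
    linarith
  have hδ₁1 : δ₁ ≤ 1 := by linarith
  obtain ⟨K₁, hK₁⟩ := exists_nat_ge (c₀ / δ₁)
  refine ⟨K₁ + 2 + 4 * a', ?_⟩
  obtain ⟨M, hM⟩ := exists_nat_ge (max (max 9 (1 / θ)) (max (16 * ((Q : ℝ) + 3) / ε) (8 * a' / ε)))
  have hM9 : (9 : ℝ) ≤ M := ((le_max_left _ _).trans (le_max_left _ _)).trans hM
  have hMθ : 1 / θ ≤ M := ((le_max_right _ _).trans (le_max_left _ _)).trans hM
  have hMQ : 16 * ((Q : ℝ) + 3) / ε ≤ M := ((le_max_left _ _).trans (le_max_right _ _)).trans hM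
  have hMa : 8 * a' / ε ≤ M := ((le_max_right _ _).trans (le_max_right _ _)).trans hM
  have hE1 : ∀ᶠ n : ℕ in atTop, 16 / ε ≤ (n : ℝ) :=
    tendsto_natCast_atTop_atTop.eventually_ge_atTop _
  have hE2 : ∀ᶠ n : ℕ in atTop, (8 * (a' : ℝ) / δ₁) ^ 2 ≤ (n : ℝ) :=
    tendsto_natCast_atTop_atTop.eventually_ge_atTop _
  filter_upwards [log_le_sqrt (δ₁ / 8) (by positivity), eventually_ge_atTop (2 ^ M), hE1, hE2,
    eventually_ge_atTop (K₀ ^ 2)] with n hn1 hn2 hn3 hn4 hn5 d D hd1 hdD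
  set L := Nat.log 2 n with hL
  have hM9' : 9 ≤ M := by exact_mod_cast hM9
  have hn512 : 512 ≤ n := by
    calc 512 = 2 ^ 9 := by norm_num
      _ ≤ 2 ^ M := Nat.pow_le_pow_right (by norm_num) hM9'
      _ ≤ n := hn2
  have hn0 : n ≠ 0 := by omega
  have hML : M ≤ L := by
    rw [hL]
    exact Nat.le_log_of_pow_le (by norm_num) hn2
  have hMLR : (M : ℝ) ≤ L := by exact_mod_cast hML
  have hL9 : 9 ≤ L := hM9'.trans hML
  have hL9R : (9 : ℝ) ≤ L := by exact_mod_cast hL9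
  have hgn : 2 ^ L ≤ n := Nat.pow_log_le_self 2 hn0
  have hng : n < 2 ^ (L + 1) := Nat.lt_pow_succ_log_self (by norm_num) n
  have hgnR : (2 : ℝ) ^ L ≤ n := by exact_mod_cast hgn
  have hngR : (n : ℝ) < 2 * 2 ^ L := by
    have : (n : ℝ) < 2 ^ (L + 1) := by exact_mod_cast hng
    rw [pow_succ] at this; linarith
  have hnR : (0 : ℝ) < n := by exact_mod_cast Nat.pos_of_ne_zero hn0
  have hn512R : (512 : ℝ) ≤ n := by exact_mod_cast hn512
  obtain ⟨S, hS⟩ : ∃ S, S = √(n : ℝ) := ⟨_, rfl⟩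
  rw [← hS] at hn1
  have hSS : S ^ 2 = n := by rw [hS]; exact Real.sq_sqrt hnR.le
  have hS0 : 0 < S := by rw [hS]; exact Real.sqrt_pos.2 hnR
  have hS2 : 2 ≤ S := by
    rw [hS]
    apply Real.le_sqrt_of_sq_le
    linarith
  have hSn : S ≤ n := by
    have := mul_le_mul_of_nonneg_left (show (1 : ℝ) ≤ S by linarith) hS0.le
    rw [← hSS, sq]
    linarith
  have hdD' : (d : ℝ) + D ≤ S := by
    rw [hS]
    apply Real.le_sqrt_of_sq_le
    exact_mod_cast hdD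
  have hdD1 : (1 : ℝ) ≤ (d : ℝ) + D := by
    have h1 : (1 : ℝ) ≤ d := by exact_mod_cast hd1
    have h2 : (0 : ℝ) ≤ D := Nat.cast_nonneg D
    linarith
  have hK₀S : (K₀ : ℝ) ≤ S := by
    rw [hS]
    apply Real.le_sqrt_of_sq_le
    exact_mod_cast hn5
  have haS : (a' : ℝ) ≤ δ₁ / 8 * S := by
    have h1 : 8 * (a' : ℝ) / δ₁ ≤ S := by
      rw [hS]
      exact Real.le_sqrt_of_sq_le hn4
    rw [div_le_iff₀ hδ₁0] at h1
    linarith
  have ha0 : (0 : ℝ) ≤ a' := Nat.cast_nonneg a'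
  -- the number of constraints
  obtain ⟨k, hk⟩ : ∃ k, k = (n - 1) / (L + a') := ⟨_, rfl⟩
  have hLa : 0 < L + a' := by omega
  have hkn : k * (L + a') + 1 ≤ n := by
    have := Nat.div_mul_le_self (n - 1) (L + a')
    rw [← hk] at this
    omega
  have hnk : n ≤ (k + 1) * (L + a') := by
    have := Nat.lt_div_mul_add (a := n - 1) hLa
    rw [← hk] at this
    rw [add_mul, one_mul]
    omega
  have hknR : (k : ℝ) * (L + a') + 1 ≤ n := by exact_mod_cast hkn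
  have hnkR : (n : ℝ) ≤ (k + 1) * (L + a') := by exact_mod_cast hnk
  have hk0' : (0 : ℝ) ≤ k := Nat.cast_nonneg k
  have hLaS : (L : ℝ) + a' ≤ δ₁ / 4 * S := by linarith
  have hSk : S ≤ δ₁ * k := by
    have h1 : S ^ 2 ≤ (k + 1) * (δ₁ / 4 * S) := by
      rw [hSS]
      exact hnkR.trans (mul_le_mul_of_nonneg_left hLaS (by linarith))
    have h2 : S ≤ (k + 1) * (δ₁ / 4) := by
      refine le_of_mul_le_mul_right ?_ hS0
      linarith
    linarith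
  have hSk' : S ≤ k := hSk.trans (mul_le_of_le_one_left hk0' hδ₁1)
  have hk1 : 1 ≤ k := by
    have : (1 : ℝ) ≤ k := by linarith
    exact_mod_cast this
  have hk1R : (1 : ℝ) ≤ k := by exact_mod_cast hk1
  have hkL : (k : ℝ) * L ≤ n := by
    have := mul_nonneg hk0' ha0
    linarith
  -- delta
  obtain ⟨δ, hδ⟩ : ∃ δ, δ = δ₁ / (d + D) := ⟨_, rfl⟩
  have hδ0 : 0 < δ := by rw [hδ]; positivity
  have hδdD : δ * ((d : ℝ) + D) = δ₁ := by
    rw [hδ]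
    exact div_mul_cancel₀ _ (by linarith)
  have hD0 : (0 : ℝ) ≤ D := Nat.cast_nonneg D
  have hd0 : (0 : ℝ) ≤ d := Nat.cast_nonneg d
  have hδk : 1 ≤ δ * k := by
    have h1 : ((d : ℝ) + D) * (δ * k) = δ₁ * k := by rw [← hδdD]; ring
    by_contra hc
    push Not at hc
    have : ((d : ℝ) + D) * (δ * k) < ((d : ℝ) + D) * 1 :=
      mul_lt_mul_of_pos_left hc (by linarith)
    linarith
  obtain ⟨r, hr⟩ : ∃ r : ℕ, r = ⌈c₀ / δ⌉₊ := ⟨_, rfl⟩
  have hr1 : c₀ ≤ δ * r := by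
    have : c₀ / δ ≤ r := by rw [hr]; exact Nat.le_ceil _
    rw [div_le_iff₀ hδ0] at this
    linarith
  have hr2 : r ≤ K₁ * (d + D) + 1 := by
    have e0 : (r : ℝ) < c₀ / δ + 1 := by
      rw [hr]; exact Nat.ceil_lt_add_one (by positivity)
    have e1 : c₀ / δ ≤ K₁ * (d + D) := by
      have : c₀ / δ = c₀ / δ₁ * (d + D) := by
        rw [hδ]
        field_simp
      rw [this]
      gcongr
    have e2 : (r : ℝ) < ((K₁ * (d + D) + 1 + 1 : ℕ) : ℝ) := by push_cast; linarith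
    have e3 : r < K₁ * (d + D) + 1 + 1 := by exact_mod_cast e2
    omega
  -- p and q
  have hg512 : (512 : ℝ) ≤ 2 ^ L := by
    calc (512 : ℝ) = 2 ^ 9 := by norm_num
      _ ≤ 2 ^ L := pow_le_pow_right₀ (by norm_num) hL9
  have hC1 : 1 ≤ C' := by
    by_contra hc
    have : C' = 0 := by omega
    rw [this] at hC'
    norm_num at hC'
  have hgC : (2 : ℝ) ≤ (2 ^ L) ^ C' := by
    calc (2 : ℝ) ≤ 2 ^ L := by linarith
      _ = (2 ^ L) ^ 1 := (pow_one _).symm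
      _ ≤ (2 ^ L) ^ C' := pow_le_pow_right₀ (by linarith) hC1
  have hp2 : 1 / ((2 : ℝ) ^ L) ^ C' ≤ 1 / 2 := one_div_le_one_div_of_le (by norm_num) hgC
  have hεL : 16 * ((Q : ℝ) + 3) ≤ ε * L := by
    rw [div_le_iff₀ hε] at hMQ
    have := mul_le_mul_of_nonneg_right hMLR hε.le
    linarith
  have hεL' : ε * L ≤ L := mul_le_of_le_one_left (by linarith) hε1
  have h5kQ : 5 * (k * Q) ≤ n := by
    have h1 : 5 * (Q : ℝ) ≤ L := by linarith
    have h2 : 5 * ((k : ℝ) * Q) ≤ n := by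
      calc 5 * ((k : ℝ) * Q) = k * (5 * Q) := by ring
        _ ≤ k * L := mul_le_mul_of_nonneg_left h1 hk0'
        _ ≤ n := hkL
    exact_mod_cast h2
  refine ⟨k, 4 * n, r, δ, 1 / (2 ^ L) ^ C', 1 / (2 ^ L) ^ C' / (256 * n), ?_, hk1, ?_, hkn, hδ0,
    hr1, ?_, ?_, ?_, by omega, by positivity, hp2, by positivity, ?_, ?_, ?_, ?_⟩
  · have : (K₀ : ℝ) ≤ k := hK₀S.trans hSk'
    exact_mod_cast this
  · have h1 : 1 ≤ θ * L := by
      rw [div_le_iff₀ hθ] at hMθ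
      have := mul_le_mul_of_nonneg_right hMLR hθ.le
      linarith
    calc (k : ℝ) = k * 1 := (mul_one _).symm
      _ ≤ k * (θ * L) := mul_le_mul_of_nonneg_left h1 hk0'
      _ = θ * (k * L) := by ring
      _ ≤ θ * n := mul_le_mul_of_nonneg_left hkL hθ.le
  · have e1 : 1 ≤ d + D := by omega
    calc (r + 1) * L + 4 * a' ≤ (K₁ * (d + D) + 1 + 1) * L + 4 * a' := by gcongr
      _ ≤ (K₁ * (d + D) + 2 * (d + D)) * L + 4 * a' * ((d + D) * L) := by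
          have e2 : 1 ≤ (d + D) * L := Nat.one_le_iff_ne_zero.2 (by positivity)
          have e3 : 4 * a' * 1 ≤ 4 * a' * ((d + D) * L) := Nat.mul_le_mul_left _ e2
          have e4 : (K₁ * (d + D) + 1 + 1) * L ≤ (K₁ * (d + D) + 2 * (d + D)) * L :=
            Nat.mul_le_mul_right L (by omega)
          omega
      _ = (K₁ + 2 + 4 * a') * (d + D) * L := by ring
  · exact Nat.le_floor (by exact_mod_cast hδk)
  · apply Nat.le_floor
    push_cast
    have h1 : (⌊δ * k⌋₊ : ℝ) ≤ δ * k := Nat.floor_le (by positivity)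
    calc (D : ℝ) * ⌊δ * k⌋₊ ≤ D * (δ * k) := mul_le_mul_of_nonneg_left h1 hD0
      _ ≤ (d + D) * (δ * k) := mul_le_mul_of_nonneg_right (by linarith) (by positivity)
      _ = δ₁ * k := by rw [← hδdD]; ring
      _ ≤ κ * k := mul_le_mul_of_nonneg_right hδ₁κ hk0'
  · have : 1 / ((2 : ℝ) ^ L) ^ C' / (256 * n) ≤ 1 / ((2 : ℝ) ^ L) ^ C' :=
      div_le_self (by positivity) (by linarith)
    linarith
  · push_cast
    apply le_of_eq
    field_simp
    norm_num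
  · -- the probability of large random inputs
    obtain ⟨g, hg⟩ : ∃ g : ℝ, g = 2 ^ L := ⟨_, rfl⟩
    rw [← hg] at hg512 ⊢
    have hg0 : 0 < g := by linarith
    have h2k : 2 * k ≤ C' * (⌊θ * k⌋₊ + 1) := by
      have e1 : θ * k < ⌊θ * k⌋₊ + 1 := Nat.lt_floor_add_one _
      have e2 : 2 * (k : ℝ) ≤ C' * (⌊θ * k⌋₊ + 1) := by
        calc 2 * (k : ℝ) ≤ C' * θ * k := mul_le_mul_of_nonneg_right hC' hk0'
          _ = C' * (θ * k) := by ring
          _ ≤ C' * (⌊θ * k⌋₊ + 1) := mul_le_mul_of_nonneg_left e1.le hC0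
      exact_mod_cast e2
    have e3 : (1 / g ^ C') ^ (⌊θ * k⌋₊ + 1) ≤ 1 / g ^ (2 * k) := by
      rw [one_div_pow, ← pow_mul]
      exact one_div_le_one_div_of_le (by positivity) (pow_le_pow_right₀ (by linarith) h2k)
    have e4 : 4 * (Q : ℝ) ≤ g := by
      have h1 : ((L + 1 : ℕ) : ℝ) ≤ 2 ^ L := by exact_mod_cast Nat.lt_two_pow_self
      rw [← hg] at h1
      push_cast at h1
      linarith
    calc g ^ k * (Q : ℝ) ^ k * 2 ^ k * (1 / g ^ C') ^ (⌊θ * k⌋₊ + 1)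
        ≤ g ^ k * (Q : ℝ) ^ k * 2 ^ k * (1 / g ^ (2 * k)) := by gcongr
      _ = (2 * Q / g) ^ k := by
          rw [div_pow, mul_pow, mul_comm 2 k, pow_mul g k 2]
          field_simp
      _ ≤ (1 / 2) ^ k := by
          apply pow_le_pow_left₀ (by positivity)
          rw [div_le_div_iff₀ hg0 (by norm_num)]
          linarith
      _ ≤ (1 / 2) ^ 1 := pow_le_pow_of_le_one (by norm_num) (by norm_num) hk1
      _ = 1 / 2 := pow_one _
  · intro s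
    have hkLb : (1 - ε / 4) * n ≤ k * L := by
      have h1 : (L : ℝ) + a' ≤ ε / 8 / 2 * n := by
        calc (L : ℝ) + a' ≤ δ₁ / 4 * S := hLaS
          _ ≤ ε / 32 / 4 * n := by gcongr
          _ ≤ ε / 8 / 2 * n := by
              have := mul_pos hε hnR
              linarith
      have h2 : (k : ℝ) * a' ≤ ε / 8 * n := by
        rw [div_le_iff₀ hε] at hMa
        have h3 : 8 * (a' : ℝ) ≤ L * ε := hMa.trans (mul_le_mul_of_nonneg_right hMLR hε.le)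
        have h4 := mul_le_mul_of_nonneg_left h3 hk0'
        have h5 := mul_le_mul_of_nonneg_left hkL hε.le
        linarith
      have h3 : (k : ℝ) * L + k * a' + (L + a') ≥ n := by
        linarith
      have h4 := mul_pos hε hnR
      linarith
    have hfin : (1 - ε) * n ≤ (1 - 7 * ε / 16) * (k * L) := by
      have h1 : (1 - 7 * ε / 16) * ((1 - ε / 4) * n) ≤ (1 - 7 * ε / 16) * (k * L) :=
        mul_le_mul_of_nonneg_left hkLb (by linarith)
      refine le_trans ?_ h1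
      rw [← mul_assoc]
      refine mul_le_mul_of_nonneg_right ?_ hnR.le
      have h2 := sq_nonneg ε
      linarith
    have hdδ : (d : ℝ) * δ ≤ δ₁ := by
      rw [← hδdD]
      have := mul_nonneg hδ0.le hD0
      linarith
    have hd8 : ((C' : ℝ) + 2) * (2 * Q) * (d * δ) ≤ ε / 8 := by
      calc ((C' : ℝ) + 2) * (2 * Q) * (d * δ) ≤ (C' + 2) * (2 * Q) * (ε / (16 * Q * (C' + 2))) := by
            gcongr
            exact hdδ.trans hδ₁ε
        _ = ε / 8 := by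
            have : (Q : ℝ) ≠ 0 := by linarith
            have : (C' : ℝ) + 2 ≠ 0 := by linarith
            field_simp
            norm_num
    have h1 := term1 ε hε n k Q s (by omega) h5kQ
    have h2 := term2 ε δ hδ0 n k Q s L C' d hk1 hL9 hngR hnR hεL hd8 hfin
    unfold HL
    have h3 := add_le_add h1 h2
    linarith

end Pool.Agent.H87.GP
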